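import Mathlib

open Finset Polynomial

namespace Pool.Agent.Results.MP_5bb8bc_co.Disproof

/-! ## Definitions -/

/-- A binary matroid whose ground set is the finite set `E` of elements of `α`.  Its cycle space is
a linear subspace of `GF(2)^E`, written as a subspace of `α → ZMod 2` all of whose vectors vanish
outside `E`; a set is identified with its characteristic vector. -/
@[ext]
structure BinMat (α : Type) where
  /-- the ground set -/
  E : Finset α
  /-- the cycle space -/
  cyc : Submodule (ZMod 2) (α → ZMod 2)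
  /-- cycles are subsets of the ground set -/
  supp : ∀ x ∈ cyc, ∀ e, e ∉ E → x e = 0

section defs

variable {α β : Type} [DecidableEq α] [DecidableEq β]

/-- Intersection with `A`: the vector `x` is replaced by `0` outside `A`. -/
def restr (A : Finset α) : (α → ZMod 2) →ₗ[ZMod 2] (α → ZMod 2) where
  toFun x := fun e => if e ∈ A then x e else 0
  map_add' x y := by funext e; by_cases h : e ∈ A <;> simp [h]
  map_smul' c x := by funext e; by_cases h : e ∈ A <;> simp [h]

/-- The subspace `GF(2)^A` of all (characteristic vectors of) subsets of `A`. -/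
def vanish (A : Finset α) : Submodule (ZMod 2) (α → ZMod 2) where
  carrier := {x | ∀ e, e ∉ A → x e = 0}
  add_mem' := by
    intro x y hx hy e he
    simp [hx e he, hy e he]
  zero_mem' := by intro e _; rfl
  smul_mem' := by
    intro c x hx e he
    simp [hx e he]

/-- The cocycle space: all subsets of `E` orthogonal to every cycle. -/
def BinMat.cocyc (M : BinMat α) : Submodule (ZMod 2) (α → ZMod 2) where
  carrier := {y | (∀ e, e ∉ M.E → y e = 0) ∧ ∀ x ∈ M.cyc, ∑ e ∈ M.E, x e * y e = 0}
  add_mem' := by
    rintro y z ⟨hy1, hy2⟩ ⟨hz1, hz2⟩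
    refine ⟨fun e he => by simp [hy1 e he, hz1 e he], fun x hx => ?_⟩
    simp only [Pi.add_apply, mul_add, Finset.sum_add_distrib, hy2 x hx, hz2 x hx, add_zero]
  zero_mem' := ⟨fun _ _ => rfl, fun x _ => by simp⟩
  smul_mem' := by
    rintro c y ⟨hy1, hy2⟩
    refine ⟨fun e he => by simp [hy1 e he], fun x hx => ?_⟩
    have : ∑ e ∈ M.E, x e * (c • y) e = c * ∑ e ∈ M.E, x e * y e := by
      rw [Finset.mul_sum]
      exact Finset.sum_congr rfl fun e _ => by simp [Pi.smul_apply, smul_eq_mul]; ring
    rw [this, hy2 x hx, mul_zero]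

/-- The dual matroid: same ground set, the cycles are the cocycles of `M`. -/
def BinMat.dual (M : BinMat α) : BinMat α where
  E := M.E
  cyc := M.cocyc
  supp := fun _ hy => hy.1

/-- An element is a bridge if it lies in no cycle; `M` is bridgeless if it has no bridge. -/
def BinMat.Bridgeless (M : BinMat α) : Prop := ∀ e ∈ M.E, ∃ x ∈ M.cyc, x e ≠ 0

/-- The reduction `M|A`: ground set `A`, cycles the cycles of `M` contained in `A`. -/
def BinMat.red (M : BinMat α) (A : Finset α) : BinMat α where
  E := A
  cyc := M.cyc ⊓ vanish A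
  supp := fun _ hx => hx.2

/-- The contraction `M·A`: ground set `A`, cycles the sets `C ∩ A` for the cycles `C` of `M`. -/
def BinMat.con (M : BinMat α) (A : Finset α) : BinMat α where
  E := A
  cyc := M.cyc.map (restr A)
  supp := by
    rintro _ ⟨x, _, rfl⟩ e he
    simp [restr, he]

/-- `Minor M N`: `N` is obtained from `M` by finitely many reductions and contractions. -/
inductive Minor (M : BinMat α) : BinMat α → Prop
  | refl : Minor M M
  | red (N : BinMat α) (A : Finset α) : Minor M N → A ⊆ N.E → Minor M (N.red A)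
  | con (N : BinMat α) (A : Finset α) : Minor M N → A ⊆ N.E → Minor M (N.con A)

/-- The bicycle space `B_M(A)`: the cycles `C` such that `C ∩ A` is a cocycle. -/
def BinMat.bic (M : BinMat α) (A : Finset α) : Submodule (ZMod 2) (α → ZMod 2) :=
  M.cyc ⊓ M.cocyc.comap (restr A)

/-- The Penrose polynomial `P_M(λ) = ∑_{A ⊆ E} (-1)^|A| λ^(dim B_M(A))`. -/
noncomputable def BinMat.penrose (M : BinMat α) : ℤ[X] :=
  ∑ A ∈ M.E.powerset, (-1) ^ A.card * X ^ (Module.finrank (ZMod 2) (M.bic A))

/-- `P_M = ∑_{i ≤ r} a_i λ^i`, `r = dim 𝒞`, has alternating coefficients: `(-1)^(r-i) a_i > 0` for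
all `0 ≤ i ≤ r`. -/
def BinMat.Alternating (M : BinMat α) : Prop :=
  ∀ i ≤ Module.finrank (ZMod 2) M.cyc,
    0 < (-1) ^ (Module.finrank (ZMod 2) M.cyc - i) * M.penrose.coeff i

/-- `M` is minimal non-alternating: it is bridgeless, `P_M` is not alternating and `P_N` is
alternating for every bridgeless proper minor `N` (smaller ground set) of `M`. -/
def BinMat.MinimalNonAlternating (M : BinMat α) : Prop :=
  M.Bridgeless ∧ ¬ M.Alternating ∧
    ∀ N : BinMat α, Minor M N → N.E.card < M.E.card → N.Bridgeless → N.Alternating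

/-- `M` and `N` are isomorphic: a bijection of the ground sets carries the cycles of `N` to those
of `M`. -/
def BinMat.Iso (M : BinMat α) (N : BinMat β) : Prop :=
  ∃ f : M.E ≃ N.E, ∀ x : β → ZMod 2, (∀ b, b ∉ N.E → x b = 0) →
    (x ∈ N.cyc ↔ (fun a => if h : a ∈ M.E then x (f ⟨a, h⟩) else 0) ∈ M.cyc)

/-- The characteristic vector of the line `{i, i+1, i+3}` of the Fano plane (points `ZMod 7`). -/
def fanoLine (i : ZMod 7) : ZMod 7 → ZMod 2 :=
  fun p => if p = i ∨ p = i + 1 ∨ p = i + 3 then 1 else 0

/-- The Fano matroid: the cycle space is spanned by the seven lines of the Fano plane. -/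
def fano : BinMat (ZMod 7) where
  E := Finset.univ
  cyc := Submodule.span (ZMod 2) (Set.range fanoLine)
  supp := fun _ _ e he => absurd (Finset.mem_univ e) he

/-- The cycle matroid of a finite simple graph: the ground set is the set of edges and the cycles
are the edge sets of the even subgraphs. -/
def cycleMatroid {V : Type} [Fintype V] [DecidableEq V] (G : SimpleGraph V)
    [DecidableRel G.Adj] : BinMat (Sym2 V) where
  E := G.edgeFinset
  cyc :=
    { carrier := {x | (∀ e, e ∉ G.edgeFinset → x e = 0) ∧
        ∀ v : V, ∑ e ∈ G.edgeFinset with v ∈ e, x e = 0}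
      add_mem' := by
        rintro x y ⟨hx1, hx2⟩ ⟨hy1, hy2⟩
        refine ⟨fun e he => by simp [hx1 e he, hy1 e he], fun v => ?_⟩
        simp only [Pi.add_apply, Finset.sum_add_distrib, hx2 v, hy2 v, add_zero]
      zero_mem' := ⟨fun _ _ => rfl, fun v => by simp⟩
      smul_mem' := by
        rintro c x ⟨hx1, hx2⟩
        refine ⟨fun e he => by simp [hx1 e he], fun v => ?_⟩
        simp only [Pi.smul_apply, ← Finset.smul_sum, hx2 v, smul_zero] }
  supp := fun _ hx => hx.1

/-- The Petersen graph: the 2-subsets of a 5-set, adjacent when disjoint. -/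
def petersen : SimpleGraph {s : Finset (Fin 5) // s.card = 2} where
  Adj s t := Disjoint s.1 t.1
  symm := ⟨fun _ _ h => h.symm⟩
  loopless := ⟨fun s h => by
    have h1 := s.2
    rw [disjoint_self.mp h] at h1
    simp at h1⟩

instance : DecidableRel petersen.Adj := fun s t => by
  unfold petersen
  infer_instance

end defs


/-! ## Minors of graphic matroids are graphic -/

section graphic

variable {α β : Type} [DecidableEq α] [DecidableEq β]

/-- `M` is the cycle matroid of a multigraph with at most nine vertices, `S i e` being the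
incidence of the vertex `i` with the edge `e`. -/
def Graphic (M : BinMat α) : Prop :=
  ∃ S : Fin 9 → α → ZMod 2,
    (∀ e ∈ M.E, ∑ i, S i e = 0) ∧
    (∀ e ∈ M.E, (Finset.univ.filter fun i => S i e ≠ 0).card ≤ 2) ∧
    ∀ x : α → ZMod 2, x ∈ M.cyc ↔
      (∀ e, e ∉ M.E → x e = 0) ∧ ∀ i, ∑ e ∈ M.E, S i e * x e = 0

theorem zmod2_add_self (a : ZMod 2) : a + a = 0 := by
  fin_cases a <;> decide

theorem zmod2_eq_one {a : ZMod 2} (h : a ≠ 0) : a = 1 := by
  fin_cases a
  · exact absurd rfl h
  · rfl

omit [DecidableEq α] in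
theorem Graphic.red {M : BinMat α} (h : Graphic M) {A : Finset α} (hA : A ⊆ M.E) :
    Graphic (M.red A) := by
  obtain ⟨S, h1, h2, h3⟩ := h
  refine ⟨S, fun e he => h1 e (hA he), fun e he => h2 e (hA he), fun x => ?_⟩
  have hsum : (∀ e, e ∉ A → x e = 0) → ∀ i, ∑ e ∈ M.E, S i e * x e = ∑ e ∈ A, S i e * x e := by
    intro hx i
    symm
    apply Finset.sum_subset hA
    intro e _ he
    rw [hx e he, mul_zero]
  constructor
  · rintro ⟨hx1, hx2⟩
    refine ⟨hx2, fun i => ?_⟩
    change ∑ e ∈ A, S i e * x e = 0
    rw [← hsum hx2 i]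
    exact ((h3 x).1 hx1).2 i
  · rintro ⟨hx1, hx2⟩
    refine ⟨(h3 x).2 ⟨fun e he => hx1 e fun he' => he (hA he'), fun i => ?_⟩, hx1⟩
    rw [hsum hx1 i]
    exact hx2 i

theorem Graphic.con_erase {M : BinMat α} (h : Graphic M) {a : α} (ha : a ∈ M.E) :
    Graphic (M.con (M.E.erase a)) := by
  obtain ⟨S, h1, h2, h3⟩ := h
  set A := M.E.erase a with hAdef
  have haA : a ∉ A := by simp [hAdef]
  have hE : M.E = insert a A := by rw [hAdef, Finset.insert_erase ha]
  have hsplit : ∀ (i : Fin 9) (x : α → ZMod 2),
      ∑ e ∈ M.E, S i e * x e = S i a * x a + ∑ e ∈ A, S i e * x e := by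
    intro i x
    rw [hE, Finset.sum_insert haA]
  have hmem : ∀ y : α → ZMod 2, y ∈ (M.con A).cyc ↔
      (∀ e, e ∉ A → y e = 0) ∧ ∃ c : ZMod 2, ∀ i, S i a * c + ∑ e ∈ A, S i e * y e = 0 := by
    intro y
    constructor
    · rintro ⟨x, hx, rfl⟩
      refine ⟨fun e he => by simp [restr, he], x a, fun i => ?_⟩
      have h4 := ((h3 x).1 hx).2 i
      rw [hsplit] at h4
      rw [← h4]
      congr 1
      refine Finset.sum_congr rfl fun e he => ?_
      simp [restr, he]
    · rintro ⟨hy, c, hc⟩
      refine ⟨fun e => if e = a then c else y e, (h3 _).2 ⟨fun e he => ?_, fun i => ?_⟩, ?_⟩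
      · have hea : e ≠ a := fun h => he (h ▸ ha)
        simp only [hea, if_false]
        exact hy e fun h => he (Finset.mem_of_mem_erase h)
      · rw [hsplit, ← hc i]
        simp only [if_true]
        congr 1
        refine Finset.sum_congr rfl fun e he => ?_
        have hea : e ≠ a := fun h => haA (h ▸ he)
        simp [hea]
      · funext e
        simp only [restr, LinearMap.coe_mk, AddHom.coe_mk]
        by_cases he : e ∈ A
        · have hea : e ≠ a := fun h => haA (h ▸ he)
          simp [he, hea]
        · simp [he, hy e he]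
  by_cases hS : ∀ i, S i a = 0
  · refine ⟨S, fun e he => h1 e (Finset.mem_of_mem_erase he),
      fun e he => h2 e (Finset.mem_of_mem_erase he), fun x => ?_⟩
    rw [hmem]
    constructor
    · rintro ⟨hx, c, hc⟩
      refine ⟨hx, fun i => ?_⟩
      have := hc i
      rwa [hS i, zero_mul, zero_add] at this
    · rintro ⟨hx, hx2⟩
      refine ⟨hx, 0, fun i => ?_⟩
      rw [mul_zero, zero_add]
      exact hx2 i
  · push Not at hS
    obtain ⟨q, hq⟩ := hS
    have hq1 : S q a = 1 := zmod2_eq_one hq
    -- the other end of `a`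
    obtain ⟨p, hpq, hp, hother⟩ : ∃ p, p ≠ q ∧ S p a = 1 ∧ ∀ i, i ≠ p → i ≠ q → S i a = 0 := by
      have h0 := h1 a ha
      have h20 := h2 a ha
      have hex : ∃ p, p ≠ q ∧ S p a ≠ 0 := by
        by_contra hcon
        push Not at hcon
        rw [← Finset.add_sum_erase _ _ (Finset.mem_univ q),
          Finset.sum_eq_zero (s := Finset.univ.erase q)] at h0
        · rw [add_zero] at h0
          exact hq h0
        · intro i hi
          exact hcon i (Finset.ne_of_mem_erase hi)
      obtain ⟨p, hpq, hp⟩ := hex
      refine ⟨p, hpq, zmod2_eq_one hp, fun i hip hiq => ?_⟩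
      by_contra hi
      have hsub : ({i, p, q} : Finset (Fin 9)) ⊆ Finset.univ.filter fun i => S i a ≠ 0 := by
        intro j hj
        simp only [Finset.mem_insert, Finset.mem_singleton] at hj
        rcases hj with rfl | rfl | rfl <;> simp [hi, hp, hq]
      have hcard : ({i, p, q} : Finset (Fin 9)).card = 3 := by
        rw [Finset.card_eq_three]
        exact ⟨i, p, q, hip, hiq, hpq, rfl⟩
      have := Finset.card_le_card hsub
      omega
    refine ⟨fun i e => S i e + S i a * S q e, fun e he => ?_, fun e he => ?_, fun x => ?_⟩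
    · rw [Finset.sum_add_distrib, h1 e (Finset.mem_of_mem_erase he), ← Finset.sum_mul, h1 a ha]
      simp
    · have h2e := h2 e (Finset.mem_of_mem_erase he)
      by_cases hqe : S q e = 0
      · refine le_trans (Finset.card_le_card ?_) h2e
        intro i hi
        simp only [Finset.mem_filter, Finset.mem_univ, true_and, hqe, mul_zero, add_zero] at hi ⊢
        exact hi
      · have hqe1 := zmod2_eq_one hqe
        have hsub : (Finset.univ.filter fun i => S i e + S i a * S q e ≠ 0) ⊆
            insert p ((Finset.univ.filter fun i => S i e ≠ 0).erase q) := by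
          intro i hi
          simp only [Finset.mem_filter, Finset.mem_univ, true_and] at hi
          simp only [Finset.mem_insert, Finset.mem_erase, Finset.mem_filter, Finset.mem_univ,
            true_and]
          by_cases hip : i = p
          · exact Or.inl hip
          · right
            by_cases hiq : i = q
            · exfalso
              apply hi
              rw [hiq, hq1, one_mul]
              exact zmod2_add_self _
            · rw [hother i hip hiq, zero_mul, add_zero] at hi
              exact ⟨hiq, hi⟩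
        have h5 := Finset.card_le_card hsub
        have h6 := Finset.card_insert_le p ((Finset.univ.filter fun i => S i e ≠ 0).erase q)
        have h7 : ((Finset.univ.filter fun i => S i e ≠ 0).erase q).card =
            (Finset.univ.filter fun i => S i e ≠ 0).card - 1 :=
          Finset.card_erase_of_mem (by simp [hqe])
        have h8 : 0 < (Finset.univ.filter fun i => S i e ≠ 0).card :=
          Finset.card_pos.mpr ⟨q, by simp [hqe]⟩
        change (Finset.univ.filter fun i => S i e + S i a * S q e ≠ 0).card ≤ 2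
        omega
    · rw [hmem]
      have hexp : ∀ i, ∑ e ∈ A, (S i e + S i a * S q e) * x e =
          ∑ e ∈ A, S i e * x e + S i a * ∑ e ∈ A, S q e * x e := by
        intro i
        rw [Finset.mul_sum, ← Finset.sum_add_distrib]
        exact Finset.sum_congr rfl fun e _ => by ring
      constructor
      · rintro ⟨hx, c, hc⟩
        refine ⟨hx, fun i => ?_⟩
        change ∑ e ∈ A, (S i e + S i a * S q e) * x e = 0
        rw [hexp i]
        have hcq := hc q
        rw [hq1, one_mul] at hcq
        have hci := hc i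
        have : ∑ e ∈ A, S q e * x e = c := by
          have h9 := zmod2_add_self c
          linear_combination hcq - h9
        rw [this, add_comm]
        exact hci
      · rintro ⟨hx, hx2⟩
        refine ⟨hx, ∑ e ∈ A, S q e * x e, fun i => ?_⟩
        have := hx2 i
        change ∑ e ∈ A, (S i e + S i a * S q e) * x e = 0 at this
        rw [hexp i] at this
        rw [add_comm]
        exact this

theorem con_self (M : BinMat α) : M.con M.E = M := by
  have hr : ∀ x ∈ M.cyc, restr M.E x = x := by
    intro x hx
    funext e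
    simp only [restr, LinearMap.coe_mk, AddHom.coe_mk]
    by_cases he : e ∈ M.E
    · simp [he]
    · simp [he, M.supp x hx e he]
  refine BinMat.ext rfl ?_
  change M.cyc.map (restr M.E) = M.cyc
  ext x
  constructor
  · rintro ⟨y, hy, rfl⟩
    rw [hr y hy]
    exact hy
  · intro hx
    exact ⟨x, hx, hr x hx⟩

theorem con_con (M : BinMat α) {A B : Finset α} (hAB : A ⊆ B) :
    (M.con B).con A = M.con A := by
  have hr : ∀ x : α → ZMod 2, restr A (restr B x) = restr A x := by
    intro x
    funext e
    simp only [restr, LinearMap.coe_mk, AddHom.coe_mk]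
    by_cases he : e ∈ A
    · simp [he, hAB he]
    · simp [he]
  refine BinMat.ext rfl ?_
  change (M.cyc.map (restr B)).map (restr A) = M.cyc.map (restr A)
  ext x
  constructor
  · rintro ⟨y, ⟨z, hz, rfl⟩, rfl⟩
    exact ⟨z, hz, (hr z).symm⟩
  · rintro ⟨z, hz, rfl⟩
    exact ⟨_, ⟨z, hz, rfl⟩, hr z⟩

theorem Graphic.con {A : Finset α} : ∀ (n : ℕ) {M : BinMat α}, (M.E \ A).card = n →
    Graphic M → A ⊆ M.E → Graphic (M.con A) := by
  intro n
  induction n with
  | zero =>
    intro M hn h hA
    have hEA : M.E = A := by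
      apply Finset.Subset.antisymm _ hA
      rw [← Finset.sdiff_eq_empty_iff_subset]
      exact Finset.card_eq_zero.mp hn
    rw [← hEA, con_self]
    exact h
  | succ n ih =>
    intro M hn h hA
    have hne : (M.E \ A).Nonempty := by
      rw [← Finset.card_pos]
      omega
    obtain ⟨a, ha⟩ := hne
    have ha' := Finset.mem_sdiff.mp ha
    have hsub : A ⊆ M.E.erase a := fun e he =>
      Finset.mem_erase.mpr ⟨fun h => ha'.2 (h ▸ he), hA he⟩
    have := ih (M := M.con (M.E.erase a)) (by
      change ((M.E.erase a) \ A).card = n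
      have : (M.E.erase a) \ A = (M.E \ A).erase a := by
        ext e
        simp only [Finset.mem_sdiff, Finset.mem_erase]
        tauto
      rw [this, Finset.card_erase_of_mem ha]
      omega) (h.con_erase ha'.1) hsub
    rwa [con_con M hsub] at this

theorem Minor.graphic {M N : BinMat α} (h : Minor M N) (hM : Graphic M) : Graphic N := by
  induction h with
  | refl => exact hM
  | red N A _ hA ih => exact ih.red hA
  | con N A _ hA ih => exact Graphic.con _ rfl ih hA

theorem Minor.subset {M N : BinMat α} (h : Minor M N) : N.E ⊆ M.E := by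
  induction h with
  | refl => exact Finset.Subset.refl _
  | red N A _ hA ih => exact hA.trans ih
  | con N A _ hA ih => exact hA.trans ih

theorem Minor.trans {M N K : BinMat α} (h : Minor M N) (h' : Minor N K) : Minor M K := by
  induction h' with
  | refl => exact h
  | red N' A _ hA ih => exact Minor.red _ _ ih hA
  | con N' A _ hA ih => exact Minor.con _ _ ih hA

/-- Every bridgeless non-alternating matroid has a minimal non-alternating minor. -/
theorem exists_minimal {M : BinMat α} (h1 : M.Bridgeless) (h2 : ¬ M.Alternating) :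
    ∃ N, Minor M N ∧ N.MinimalNonAlternating := by
  classical
  have hex : ∃ n : ℕ, ∃ N, Minor M N ∧ N.Bridgeless ∧ ¬ N.Alternating ∧ N.E.card = n :=
    ⟨_, M, Minor.refl, h1, h2, rfl⟩
  obtain ⟨N, hN, hb, ha, hc⟩ := Nat.find_spec hex
  refine ⟨N, hN, hb, ha, fun K hK hlt hKb => ?_⟩
  by_contra hKa
  exact Nat.find_min hex (hc ▸ hlt) ⟨K, hN.trans hK, hKb, hKa, rfl⟩

theorem Graphic.iso {M : BinMat α} {N : BinMat β} (hM : Graphic M) (h : M.Iso N) :
    Graphic N := by
  obtain ⟨S, h1, h2, h3⟩ := hM
  obtain ⟨f, hf⟩ := h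
  refine ⟨fun i b => if h : b ∈ N.E then S i (f.symm ⟨b, h⟩).1 else 0, fun b hb => ?_,
    fun b hb => ?_, fun x => ?_⟩
  · simp only [hb, dif_pos]
    exact h1 _ (f.symm ⟨b, hb⟩).2
  · simp only [hb, dif_pos]
    exact h2 _ (f.symm ⟨b, hb⟩).2
  · have key : ∀ x : β → ZMod 2, (∀ b, b ∉ N.E → x b = 0) → ∀ i,
        ∑ a ∈ M.E, S i a * (if h : a ∈ M.E then x (f ⟨a, h⟩) else 0) =
        ∑ b ∈ N.E, (if h : b ∈ N.E then S i (f.symm ⟨b, h⟩).1 else 0) * x b := by
      intro x _ i
      rw [← Finset.sum_coe_sort M.E, ← Finset.sum_coe_sort N.E]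
      refine Fintype.sum_equiv f _ _ fun a => ?_
      have hfa := (f a).2
      simp [a.2, hfa]
    constructor
    · intro hx
      have hx0 := N.supp x hx
      refine ⟨hx0, fun i => ?_⟩
      have := ((h3 _).1 ((hf x hx0).1 hx)).2 i
      rw [key x hx0 i] at this
      exact this
    · rintro ⟨hx0, hx1⟩
      refine (hf x hx0).2 ((h3 _).2 ⟨fun e he => by simp [he], fun i => ?_⟩)
      rw [key x hx0 i]
      exact hx1 i

/-- Few independent constraints leave a large cycle space. -/
theorem rank_le [Fintype α] {M : BinMat α} (S : Fin 9 → α → ZMod 2)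
    (h3 : ∀ x : α → ZMod 2, x ∈ M.cyc ↔
      (∀ e, e ∉ M.E → x e = 0) ∧ ∀ i, ∑ e ∈ M.E, S i e * x e = 0)
    (J : Finset (Fin 9))
    (hJ : ∀ x : α → ZMod 2, (∀ j ∈ J, ∑ e ∈ M.E, S j e * x e = 0) →
      ∀ i, ∑ e ∈ M.E, S i e * x e = 0) :
    M.E.card ≤ J.card + Module.finrank (ZMod 2) M.cyc := by
  let Ψ : (α → ZMod 2) →ₗ[ZMod 2] (J → ZMod 2) × ({e // e ∉ M.E} → ZMod 2) :=
    { toFun := fun x => (fun j => ∑ e ∈ M.E, S j.1 e * x e, fun e => x e.1)
      map_add' := by
        intro x y
        refine Prod.ext ?_ ?_
        · funext j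
          simp [mul_add, Finset.sum_add_distrib]
        · funext e
          simp
      map_smul' := by
        intro c x
        refine Prod.ext ?_ ?_
        · funext j
          simp only [Pi.smul_apply, smul_eq_mul, RingHom.id_apply, Prod.smul_fst,
            Finset.mul_sum]
          exact Finset.sum_congr rfl fun e _ => by ring
        · funext e
          simp }
  have hker : LinearMap.ker Ψ = M.cyc := by
    ext x
    rw [LinearMap.mem_ker]
    constructor
    · intro hx
      have h1 : (fun j : J => ∑ e ∈ M.E, S j.1 e * x e) = 0 := congrArg Prod.fst hx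
      have h2 : (fun e : {e // e ∉ M.E} => x e.1) = 0 := congrArg Prod.snd hx
      exact (h3 x).2 ⟨fun e he => congrFun h2 ⟨e, he⟩,
        hJ x fun j hj => congrFun h1 ⟨j, hj⟩⟩
    · intro hx
      obtain ⟨h1, h2⟩ := (h3 x).1 hx
      refine Prod.ext ?_ ?_
      · funext j
        exact h2 j.1
      · funext e
        exact h1 e.1 e.2
  have h4 := LinearMap.finrank_range_add_finrank_ker Ψ
  rw [hker, Module.finrank_fintype_fun_eq_card] at h4
  have h5 : Module.finrank (ZMod 2) (LinearMap.range Ψ) ≤
      Module.finrank (ZMod 2) ((J → ZMod 2) × ({e // e ∉ M.E} → ZMod 2)) :=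
    Submodule.finrank_le _
  rw [Module.finrank_prod, Module.finrank_fintype_fun_eq_card,
    Module.finrank_fintype_fun_eq_card, Fintype.card_coe] at h5
  have h6 : Fintype.card {e // e ∉ M.E} = Fintype.card α - M.E.card := by
    rw [Fintype.card_subtype_compl, Fintype.card_coe]
  have h7 : M.E.card ≤ Fintype.card α := Finset.card_le_univ _
  omega

/-- The vertex-edge count: if all nonzero cocycles of a graphic matroid have at least three
elements, then `|E| + 3 ≤ 3 dim 𝒞`. -/
theorem Graphic.count [Fintype α] {M : BinMat α} (h : Graphic M) (hE : 2 ≤ M.E.card)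
    (hw : ∀ y ∈ M.cocyc, y ≠ 0 → 3 ≤ (M.E.filter fun e => y e ≠ 0).card) :
    M.E.card + 3 ≤ 3 * Module.finrank (ZMod 2) M.cyc := by
  obtain ⟨S, h1, h2, h3⟩ := h
  set I : Finset (Fin 9) := Finset.univ.filter fun i => restr M.E (S i) ≠ 0 with hI
  have hs : ∀ i, i ∉ I → ∀ e ∈ M.E, S i e = 0 := by
    intro i hi e he
    simp only [hI, Finset.mem_filter, Finset.mem_univ, true_and, not_not] at hi
    have := congrFun hi e
    simpa [restr, he] using this
  have hcoc : ∀ i, restr M.E (S i) ∈ M.cocyc := by
    intro i
    refine ⟨fun e he => by simp [restr, he], fun x hx => ?_⟩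
    rw [← ((h3 x).1 hx).2 i]
    exact Finset.sum_congr rfl fun e he => by simp [restr, he, mul_comm]
  have hcount : 3 * I.card ≤ 2 * M.E.card := by
    calc 3 * I.card = ∑ i ∈ I, 3 := by rw [Finset.sum_const, smul_eq_mul, mul_comm]
      _ ≤ ∑ i ∈ I, (M.E.filter fun e => S i e ≠ 0).card := by
        refine Finset.sum_le_sum fun i hi => ?_
        have hi' : restr M.E (S i) ≠ 0 := (Finset.mem_filter.mp hi).2
        have := hw _ (hcoc i) hi'
        refine this.trans (Finset.card_le_card ?_)
        intro e he
        rw [Finset.mem_filter] at he ⊢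
        refine ⟨he.1, ?_⟩
        have h8 := he.2
        simpa [restr, he.1] using h8
      _ ≤ ∑ i, (M.E.filter fun e => S i e ≠ 0).card :=
        Finset.sum_le_sum_of_subset (Finset.subset_univ _)
      _ = ∑ i, ∑ e ∈ M.E, if S i e ≠ 0 then 1 else 0 := by
        refine Finset.sum_congr rfl fun i _ => ?_
        rw [Finset.card_filter]
      _ = ∑ e ∈ M.E, ∑ i, if S i e ≠ 0 then 1 else 0 := Finset.sum_comm
      _ = ∑ e ∈ M.E, (Finset.univ.filter fun i => S i e ≠ 0).card := by
        refine Finset.sum_congr rfl fun e _ => ?_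
        rw [Finset.card_filter]
      _ ≤ ∑ e ∈ M.E, 2 := Finset.sum_le_sum fun e he => h2 e he
      _ = 2 * M.E.card := by rw [Finset.sum_const, smul_eq_mul, mul_comm]
  rcases I.eq_empty_or_nonempty with hIe | ⟨i0, hi0⟩
  · have := rank_le S h3 ∅ (fun x _ i => Finset.sum_eq_zero fun e he => by
      rw [hs i (by simp [hIe]) e he, zero_mul])
    simp only [Finset.card_empty, zero_add] at this
    omega
  · have := rank_le S h3 (I.erase i0) (fun x hx i => by
      by_cases hi : i ∈ I
      · by_cases hii : i = i0
        · subst hii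
          have htot : ∑ j, ∑ e ∈ M.E, S j e * x e = 0 := by
            rw [Finset.sum_comm]
            refine Finset.sum_eq_zero fun e he => ?_
            rw [← Finset.sum_mul, h1 e he, zero_mul]
          rw [← Finset.add_sum_erase _ _ (Finset.mem_univ i),
            Finset.sum_eq_zero (s := Finset.univ.erase i), add_zero] at htot
          · exact htot
          · intro j hj
            by_cases hjI : j ∈ I
            · exact hx j (Finset.mem_erase.mpr ⟨Finset.ne_of_mem_erase hj, hjI⟩)
            · exact Finset.sum_eq_zero fun e he => by rw [hs j hjI e he, zero_mul]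
        · exact hx i (Finset.mem_erase.mpr ⟨hii, hi⟩)
      · exact Finset.sum_eq_zero fun e he => by rw [hs i hi e he, zero_mul])
    have h9 : (I.erase i0).card = I.card - 1 := Finset.card_erase_of_mem hi0
    have h10 : 0 < I.card := Finset.card_pos.mpr ⟨i0, hi0⟩
    omega

end graphic

/-! ## The duals of the Fano matroid and of `K₅` are not graphic -/

/-- three cocycles of the Fano matroid -/
def fanoCo : Fin 3 → ZMod 7 → ZMod 2 := ![
  fun p => if p = 0 ∨ p = 1 ∨ p = 3 then 0 else 1,
  fun p => if p = 1 ∨ p = 2 ∨ p = 4 then 0 else 1,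
  fun p => if p = 2 ∨ p = 3 ∨ p = 5 then 0 else 1]

theorem fanoLine_dot : ∀ (i : ZMod 7) (k : Fin 3), ∑ e : ZMod 7, fanoLine i e * fanoCo k e = 0 := by
  decide +kernel

theorem fanoCo_mem (k : Fin 3) : fanoCo k ∈ fano.dual.cyc := by
  refine ⟨fun e he => absurd (Finset.mem_univ e) he, fun x hx => ?_⟩
  change ∑ e : ZMod 7, x e * fanoCo k e = 0
  have hx' : x ∈ Submodule.span (ZMod 2) (Set.range fanoLine) := hx
  clear hx
  induction hx' using Submodule.span_induction with
  | mem y hy =>
    obtain ⟨i, rfl⟩ := hy
    exact fanoLine_dot i k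
  | zero => simp
  | add y z _ _ hy hz =>
    simp only [Pi.add_apply, add_mul, Finset.sum_add_distrib]
    rw [hy, hz, add_zero]
  | smul c y _ hy =>
    have : ∑ e, (c • y) e * fanoCo k e = c * ∑ e, y e * fanoCo k e := by
      rw [Finset.mul_sum]
      exact Finset.sum_congr rfl fun e _ => by simp [mul_assoc]
    rw [this, hy, mul_zero]

theorem fano_weight : ∀ y : ZMod 7 → ZMod 2, (∀ k : Fin 3, ∑ e : ZMod 7, fanoCo k e * y e = 0) →
    y ≠ 0 → 3 ≤ (Finset.univ.filter fun e => y e ≠ 0).card := by
  decide +kernel

theorem fano_inj : ∀ y : ZMod 7 → ZMod 2, (∀ i : ZMod 7, ∑ e : ZMod 7, fanoLine i e * y e = 0) →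
    y 0 = 0 → y 1 = 0 → y 2 = 0 → y = 0 := by
  decide +kernel

theorem finrank_le_of_coords {α : Type} [Fintype α] (W : Submodule (ZMod 2) (α → ZMod 2)) (n : ℕ)
    (c : Fin n → α) (h : ∀ y ∈ W, (∀ k, y (c k) = 0) → y = 0) :
    Module.finrank (ZMod 2) W ≤ n := by
  let φ : W →ₗ[ZMod 2] (Fin n → ZMod 2) :=
    { toFun := fun y k => y.1 (c k)
      map_add' := fun y z => by funext k; simp
      map_smul' := fun a y => by funext k; simp }
  have hinj : Function.Injective φ := by
    rw [← LinearMap.ker_eq_bot, LinearMap.ker_eq_bot']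
    intro y hy
    apply Subtype.ext
    exact h y.1 y.2 fun k => congrFun hy k
  have := LinearMap.finrank_le_finrank_of_injective hinj
  rwa [Module.finrank_fintype_fun_eq_card, Fintype.card_fin] at this

theorem not_graphic_fanoDual : ¬ Graphic fano.dual := by
  intro h
  have hE : fano.dual.E.card = 7 := rfl
  have h1 := h.count (by rw [hE]; norm_num) (by
    intro y hy hy0
    change 3 ≤ (Finset.univ.filter fun e => y e ≠ 0).card
    exact fano_weight y (fun k => hy.2 _ (fanoCo_mem k)) hy0)
  have h2 : Module.finrank (ZMod 2) fano.dual.cyc ≤ 3 :=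
    finrank_le_of_coords _ 3 ![0, 1, 2] (by
      intro y hy hk
      have hy' : y ∈ fano.cocyc := hy
      refine fano_inj y (fun i => hy'.2 _ (Submodule.subset_span ⟨i, rfl⟩)) (hk 0) (hk 1) (hk 2))
  rw [hE] at h1
  omega

section K5

variable {V : Type} [Fintype V] [DecidableEq V] (G : SimpleGraph V) [DecidableRel G.Adj]

theorem cycle_weight (y : Sym2 V → ZMod 2) (hy : y ∈ (cycleMatroid G).cyc) (h0 : y ≠ 0) :
    3 ≤ ((cycleMatroid G).E.filter fun e => y e ≠ 0).card := by
  change 3 ≤ (G.edgeFinset.filter fun e => y e ≠ 0).card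
  obtain ⟨hy1, hy2⟩ := hy
  obtain ⟨e, he⟩ := Function.ne_iff.mp h0
  have heE : e ∈ G.edgeFinset := by
    by_contra hc
    exact he (hy1 e hc)
  have hother : ∀ v ∈ e, ∃ f ∈ G.edgeFinset, v ∈ f ∧ f ≠ e ∧ y f ≠ 0 := by
    intro v hv
    by_contra hcon
    push Not at hcon
    have h3 := hy2 v
    rw [← Finset.add_sum_erase _ _ (Finset.mem_filter.mpr ⟨heE, hv⟩),
      Finset.sum_eq_zero, add_zero] at h3
    · exact he h3
    · intro f hf
      have hf1 := Finset.mem_filter.mp (Finset.mem_of_mem_erase hf)
      exact hcon f hf1.1 hf1.2 (Finset.ne_of_mem_erase hf)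
  induction e using Sym2.ind with
  | _ u v =>
    have huv : u ≠ v := by
      have : G.Adj u v := by
        rw [SimpleGraph.mem_edgeFinset, SimpleGraph.mem_edgeSet] at heE
        exact heE
      exact this.ne
    obtain ⟨f, hf, huf, hfe, hyf⟩ := hother u (Sym2.mem_mk_left u v)
    obtain ⟨g, hg, hvg, hge, hyg⟩ := hother v (Sym2.mem_mk_right u v)
    have hfg : f ≠ g := by
      rintro rfl
      exact hfe ((Sym2.mem_and_mem_iff huv).mp ⟨huf, hvg⟩)
    have hsub : ({s(u, v), f, g} : Finset (Sym2 V)) ⊆ G.edgeFinset.filter fun e => y e ≠ 0 := by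
      intro x hx
      simp only [Finset.mem_insert, Finset.mem_singleton] at hx
      rw [Finset.mem_filter]
      rcases hx with rfl | rfl | rfl
      · exact ⟨heE, he⟩
      · exact ⟨hf, hyf⟩
      · exact ⟨hg, hyg⟩
    have hcard : ({s(u, v), f, g} : Finset (Sym2 V)).card = 3 := by
      rw [Finset.card_eq_three]
      exact ⟨s(u, v), f, g, hfe.symm, hge.symm, hfg, rfl⟩
    rw [← hcard]
    exact Finset.card_le_card hsub

/-- The star of a vertex is a cocycle. -/
theorem star_mem (v : V) :
    (fun e => if e ∈ G.edgeFinset ∧ v ∈ e then (1 : ZMod 2) else 0) ∈ (cycleMatroid G).cocyc := by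
  refine ⟨fun e he => ?_, fun x hx => ?_⟩
  · have : e ∉ G.edgeFinset := he
    simp [this]
  · change ∑ e ∈ G.edgeFinset, x e * (if e ∈ G.edgeFinset ∧ v ∈ e then (1 : ZMod 2) else 0) = 0
    have h2 := hx.2 v
    rw [Finset.sum_filter] at h2
    refine Eq.trans (Finset.sum_congr rfl fun e he => ?_) h2
    by_cases hv : v ∈ e <;> simp [he, hv]

theorem bidual_le : (cycleMatroid G).dual.cocyc ≤ (cycleMatroid G).cyc := by
  intro y hy
  refine ⟨hy.1, fun v => ?_⟩
  have h := hy.2 _ (star_mem G v)
  change ∑ e ∈ G.edgeFinset, (if e ∈ G.edgeFinset ∧ v ∈ e then (1 : ZMod 2) else 0) * y e = 0 at h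
  rw [Finset.sum_filter]
  refine Eq.trans (Finset.sum_congr rfl fun e he => ?_) h
  by_cases hv : v ∈ e <;> simp [he, hv]

end K5

/-- The triangle on `0, i, j` of `K₅`. -/
def tri (i j : Fin 5) : Sym2 (Fin 5) → ZMod 2 :=
  fun e => if e ∈ ({s(0, i), s(0, j), s(i, j)} : Finset (Sym2 (Fin 5))) then 1 else 0

theorem tri_mem : ∀ i j : Fin 5, i ≠ 0 → j ≠ 0 → i ≠ j →
    (∀ e, e ∉ (⊤ : SimpleGraph (Fin 5)).edgeFinset → tri i j e = 0) ∧
      ∀ v : Fin 5, ∑ e ∈ (⊤ : SimpleGraph (Fin 5)).edgeFinset with v ∈ e, tri i j e = 0 := by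
  decide +kernel

theorem tri_card : ∀ i j : Fin 5, i ≠ 0 → j ≠ 0 → i ≠ j →
    ({s(0, i), s(0, j), s(i, j)} : Finset (Sym2 (Fin 5))) ⊆ (⊤ : SimpleGraph (Fin 5)).edgeFinset ∧
    s(0, i) ≠ s(0, j) ∧ s(0, i) ≠ s(i, j) ∧ s(0, j) ≠ s(i, j) := by
  decide +kernel

theorem card_K5 : (⊤ : SimpleGraph (Fin 5)).edgeFinset.card = 10 := by
  decide +kernel

theorem not_graphic_K5Dual : ¬ Graphic (cycleMatroid (⊤ : SimpleGraph (Fin 5))).dual := by
  intro h
  have hE : (cycleMatroid (⊤ : SimpleGraph (Fin 5))).dual.E.card = 10 := card_K5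
  have h1 := h.count (by rw [hE]; norm_num) (by
    intro y hy hy0
    exact cycle_weight _ y (bidual_le _ hy) hy0)
  have h2 : Module.finrank (ZMod 2) (cycleMatroid (⊤ : SimpleGraph (Fin 5))).dual.cyc ≤ 4 :=
    finrank_le_of_coords _ 4 ![s(0, 1), s(0, 2), s(0, 3), s(0, 4)] (by
      intro y hy hk
      have hy' : y ∈ (cycleMatroid (⊤ : SimpleGraph (Fin 5))).cocyc := hy
      have h0 : ∀ i : Fin 5, i ≠ 0 → y s(0, i) = 0 := by
        intro i hi
        fin_cases i
        · exact absurd rfl hi
        · exact hk 0
        · exact hk 1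
        · exact hk 2
        · exact hk 3
      have h3 : ∀ i j : Fin 5, i ≠ 0 → j ≠ 0 → i ≠ j → y s(i, j) = 0 := by
        intro i j hi hj hij
        have h4 := hy'.2 (tri i j) (tri_mem i j hi hj hij)
        obtain ⟨hs, h5, h6, h7⟩ := tri_card i j hi hj hij
        change ∑ e ∈ (⊤ : SimpleGraph (Fin 5)).edgeFinset, tri i j e * y e = 0 at h4
        rw [← Finset.sum_subset hs] at h4
        · rw [Finset.sum_insert (by simp [h5, h6]), Finset.sum_insert (by simp [h7]),
            Finset.sum_singleton, h0 i hi, h0 j hj] at h4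
          simpa [tri] using h4
        · intro e _ he
          simp [tri, he]
      funext e
      by_cases he : e ∈ (⊤ : SimpleGraph (Fin 5)).edgeFinset
      · induction e using Sym2.ind with
        | _ i j =>
          have hij : i ≠ j := by
            rw [SimpleGraph.mem_edgeFinset, SimpleGraph.mem_edgeSet] at he
            exact he.ne
          by_cases hi : i = 0
          · subst hi
            exact h0 j hij.symm
          · by_cases hj : j = 0
            · subst hj
              rw [Sym2.eq_swap]
              exact h0 i hi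
            · exact h3 i j hi hj hij
      · exact hy'.1 e he)
  rw [hE] at h1
  omega

theorem card_petersen : (cycleMatroid petersen).E.card = 15 := by
  change petersen.edgeFinset.card = 15
  decide +kernel

/-! ## The counterexample: a graph with 9 vertices and 14 edges -/

/-- The ends of the 14 edges. -/
def ends : Fin 14 → Fin 9 × Fin 9 :=
  ![(8, 0), (0, 6), (8, 7), (2, 3), (4, 6), (6, 5), (5, 3), (8, 4), (4, 2), (2, 1), (0, 3),
    (7, 5), (1, 7), (0, 1)]

/-- vertex-edge incidences -/
def inc (v : Fin 9) (e : Fin 14) : ZMod 2 :=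
  if v = (ends e).1 ∨ v = (ends e).2 then 1 else 0

/-- Its cycle matroid. -/
def M0 : BinMat (Fin 14) where
  E := Finset.univ
  cyc :=
    { carrier := {x | ∀ v, ∑ e, inc v e * x e = 0}
      add_mem' := by
        intro x y hx hy v
        simp only [Pi.add_apply, mul_add, Finset.sum_add_distrib, hx v, hy v, add_zero]
      zero_mem' := by intro v; simp
      smul_mem' := by
        intro c x hx v
        have : ∑ e, inc v e * (c • x) e = c * ∑ e, inc v e * x e := by
          rw [Finset.mul_sum]
          exact Finset.sum_congr rfl fun e _ => by simp [Pi.smul_apply, smul_eq_mul]; ring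
        rw [this, hx v, mul_zero] }
  supp := fun _ _ e he => absurd (Finset.mem_univ e) he

theorem graphic_M0 : Graphic M0 := by
  refine ⟨inc, fun e _ => ?_, fun e _ => ?_, fun x => ?_⟩
  · revert e
    decide +kernel
  · revert e
    decide +kernel
  · constructor
    · intro hx
      exact ⟨fun e he => absurd (Finset.mem_univ e) he, hx⟩
    · intro hx
      exact hx.2

/-- The six fundamental cycles, written in the columns: bit `j` of `gN e` tells whether `e` is in
the `j`-th one. -/
def gN : Fin 14 → ℕ := ![53, 19, 48, 12, 1, 18, 2, 5, 4, 8, 14, 16, 32, 40]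

def row (j : Fin 6) (e : Fin 14) : ZMod 2 := if (gN e).testBit j then 1 else 0

/-- the edges outside the spanning tree -/
def co : Fin 6 → Fin 14 := ![4, 6, 8, 9, 11, 12]

def cutN : Fin 14 → ℕ := ![111, 96, 128, 4, 0, 32, 0, 16, 0, 0, 12, 0, 0, 2]

def cut (e : Fin 14) (v : Fin 9) : ZMod 2 := if (cutN e).testBit v then 1 else 0

theorem row_co : ∀ i j, row j (co i) = if i = j then 1 else 0 := by decide +kernel

theorem inc_row : ∀ v j, ∑ e, inc v e * row j e = 0 := by decide +kernel

theorem cut_identity : ∀ e f, (if e = f then (1 : ZMod 2) else 0) =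
    (∑ j, row j e * if co j = f then 1 else 0) + ∑ v, cut e v * inc v f := by decide +kernel

/-- linear combinations of the fundamental cycles -/
def Gm : (Fin 6 → ZMod 2) →ₗ[ZMod 2] (Fin 14 → ZMod 2) where
  toFun z := fun e => ∑ j, z j * row j e
  map_add' x y := by funext e; simp [add_mul, Finset.sum_add_distrib]
  map_smul' c x := by
    funext e
    simp only [Pi.smul_apply, smul_eq_mul, RingHom.id_apply, Finset.mul_sum]
    exact Finset.sum_congr rfl fun j _ => by ring

theorem Gm_inj : Function.Injective Gm := by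
  rw [← LinearMap.ker_eq_bot, LinearMap.ker_eq_bot']
  intro z hz
  funext i
  have := congrFun hz (co i)
  change ∑ j, z j * row j (co i) = 0 at this
  simpa [row_co] using this

theorem M0_cyc : M0.cyc = LinearMap.range Gm := by
  ext x
  rw [LinearMap.mem_range]
  constructor
  · intro hx
    refine ⟨fun j => x (co j), ?_⟩
    funext e
    change ∑ j, x (co j) * row j e = x e
    have h1 : x e = ∑ f, (if e = f then (1 : ZMod 2) else 0) * x f := by simp
    rw [h1]
    have h2 : ∀ f, (if e = f then (1 : ZMod 2) else 0) * x f =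
        (∑ j, (row j e * if co j = f then 1 else 0) * x f) + ∑ v, cut e v * (inc v f * x f) := by
      intro f
      rw [cut_identity e f, add_mul, Finset.sum_mul, Finset.sum_mul]
      congr 1
      exact Finset.sum_congr rfl fun v _ => by ring
    rw [Finset.sum_congr rfl fun f _ => h2 f, Finset.sum_add_distrib, Finset.sum_comm,
      Finset.sum_comm (f := fun f v => cut e v * (inc v f * x f))]
    have h3 : ∀ v, ∑ f, cut e v * (inc v f * x f) = 0 := by
      intro v
      rw [← Finset.mul_sum, hx v, mul_zero]
    rw [Finset.sum_eq_zero (s := Finset.univ) (f := fun v => ∑ f, cut e v * (inc v f * x f))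
      fun v _ => h3 v, add_zero]
    refine Finset.sum_congr rfl fun j _ => ?_
    simp [mul_comm]
  · rintro ⟨z, rfl⟩ v
    change ∑ e, inc v e * ∑ j, z j * row j e = 0
    have : ∀ e, inc v e * ∑ j, z j * row j e = ∑ j, z j * (inc v e * row j e) := by
      intro e
      rw [Finset.mul_sum]
      exact Finset.sum_congr rfl fun j _ => by ring
    rw [Finset.sum_congr rfl fun e _ => this e, Finset.sum_comm]
    refine Finset.sum_eq_zero fun j _ => ?_
    rw [← Finset.mul_sum, inc_row, mul_zero]

theorem finrank_M0 : Module.finrank (ZMod 2) M0.cyc = 6 := by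
  rw [M0_cyc, LinearMap.finrank_range_of_inj Gm_inj, Module.finrank_fintype_fun_eq_card,
    Fintype.card_fin]

theorem bridgeless_M0 : M0.Bridgeless := by
  have h : ∀ e : Fin 14, ∃ j, row j e ≠ 0 := by decide +kernel
  intro e _
  obtain ⟨j, hj⟩ := h e
  refine ⟨Gm (Pi.single j 1), ?_, ?_⟩
  · rw [M0_cyc]
    exact ⟨_, rfl⟩
  · change ∑ i, (Pi.single j (1 : ZMod 2) : Fin 6 → ZMod 2) i * row i e ≠ 0
    simpa [Pi.single_apply] using hj

/-- The Gram matrix of one edge. -/
def GM (e : Fin 14) : Fin 6 → Fin 6 → ZMod 2 := fun i j => row i e * row j e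

/-- Nonsingular `6 × 6` matrices. -/
def NS (X : Fin 6 → Fin 6 → ZMod 2) : Prop :=
  ∀ z : Fin 6 → ZMod 2, (∀ j, ∑ i, z i * X i j = 0) → z = 0

theorem bic_M0 (A : Finset (Fin 14)) : M0.bic A = ⊥ ↔ NS (∑ e ∈ A, GM e) := by
  have key : ∀ z : Fin 6 → ZMod 2, Gm z ∈ M0.bic A ↔
      ∀ j, ∑ i, z i * (∑ e ∈ A, GM e) i j = 0 := by
    intro z
    have hsum : ∀ j, ∑ e, row j e * restr A (Gm z) e = ∑ i, z i * (∑ e ∈ A, GM e) i j := by
      intro j
      have h1 : ∀ e, row j e * restr A (Gm z) e =
          if e ∈ A then ∑ i, z i * (row i e * row j e) else 0 := by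
        intro e
        simp only [restr, LinearMap.coe_mk, AddHom.coe_mk]
        by_cases he : e ∈ A
        · simp only [he, if_true]
          change row j e * ∑ i, z i * row i e = _
          rw [Finset.mul_sum]
          exact Finset.sum_congr rfl fun i _ => by ring
        · simp [he]
      rw [Finset.sum_congr rfl fun e _ => h1 e, Finset.sum_ite_mem, Finset.univ_inter,
        Finset.sum_comm]
      refine Finset.sum_congr rfl fun i _ => ?_
      rw [← Finset.mul_sum]
      simp [GM, Finset.sum_apply]
    constructor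
    · rintro ⟨_, _, h2⟩ j
      rw [← hsum j]
      have hrow : row j ∈ M0.cyc := by
        rw [M0_cyc]
        refine ⟨Pi.single j 1, ?_⟩
        funext e
        change ∑ i, (Pi.single j (1 : ZMod 2) : Fin 6 → ZMod 2) i * row i e = row j e
        simp [Pi.single_apply]
      exact h2 _ hrow
    · intro h
      refine ⟨?_, fun e he => absurd (Finset.mem_univ e) he, ?_⟩
      · rw [M0_cyc]
        exact ⟨z, rfl⟩
      · intro w hw
        rw [M0_cyc] at hw
        obtain ⟨u, rfl⟩ := hw
        change ∑ e, (∑ j, u j * row j e) * restr A (Gm z) e = 0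
        have : ∀ e, (∑ j, u j * row j e) * restr A (Gm z) e =
            ∑ j, u j * (row j e * restr A (Gm z) e) := by
          intro e
          rw [Finset.sum_mul]
          exact Finset.sum_congr rfl fun j _ => by ring
        rw [Finset.sum_congr rfl fun e _ => this e, Finset.sum_comm]
        refine Finset.sum_eq_zero fun j _ => ?_
        rw [← Finset.mul_sum, hsum j, h j, mul_zero]
  constructor
  · intro h z hz
    have h1 := (key z).2 hz
    rw [h, Submodule.mem_bot] at h1
    apply Gm_inj
    rw [h1, map_zero]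
  · intro h
    rw [Submodule.eq_bot_iff]
    intro x hx
    have hx1 : x ∈ M0.cyc := hx.1
    rw [M0_cyc] at hx1
    obtain ⟨z, rfl⟩ := hx1
    rw [h z ((key z).1 hx), map_zero]

/-! ### The computation -/

/-- Gaussian elimination on rows written in binary. -/
def elim : ℕ → List ℕ → Bool
  | 0, _ => true
  | _ + 1, [] => true
  | n + 1, r :: rs =>
    if r = 0 then false
    else elim n (rs.map fun s => if s.testBit (Nat.log2 r) then Nat.xor s r else s)

/-- The signed count of the nonsingular Gram matrices. -/
def go : List (List ℕ) → List ℕ → ℤ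
  | [], L => if elim 6 L then 1 else 0
  | t :: ts, L => go ts L - go ts (List.zipWith Nat.xor L t)

/-- Sum (mod 2) of the chosen rows. -/
def xs : List Bool → List ℕ → ℕ
  | c :: cs, r :: rs => (if c then r else 0) ^^^ xs cs rs
  | _, _ => 0

def IndepL (L : List ℕ) : Prop :=
  ∀ cs : List Bool, cs.length = L.length → xs cs L = 0 → ∀ c ∈ cs, c = false

theorem xs_map (f : ℕ → ℕ) (h0 : f 0 = 0) (hf : ∀ a b, f (a ^^^ b) = f a ^^^ f b) :
    ∀ (cs : List Bool) (L : List ℕ), xs cs (L.map f) = f (xs cs L) := by
  intro cs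
  induction cs with
  | nil => intro L; cases L <;> simp [xs, h0]
  | cons c cs ih =>
    intro L
    cases L with
    | nil => simp [xs, h0]
    | cons r rs =>
      simp only [List.map_cons, xs, ih, hf]
      cases c <;> simp [h0]

theorem xs_false : ∀ (n : ℕ) (L : List ℕ), xs (List.replicate n false) L = 0 := by
  intro n
  induction n with
  | zero => intro L; simp [xs]
  | succ n ih =>
    intro L
    cases L with
    | nil => simp [List.replicate_succ, xs]
    | cons r rs => simp [List.replicate_succ, xs, ih]

theorem elim_iff : ∀ (n : ℕ) (L : List ℕ), L.length ≤ n → (elim n L = true ↔ IndepL L) := by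
  intro n
  induction n with
  | zero =>
    intro L hL
    have : L = [] := List.length_eq_zero_iff.mp (by omega)
    subst this
    simp only [elim, true_iff]
    intro cs hcs _ c hc
    rw [List.length_nil, List.length_eq_zero_iff] at hcs
    simp [hcs] at hc
  | succ n ih =>
    intro L hL
    cases L with
    | nil =>
      simp only [elim, true_iff]
      intro cs hcs _ c hc
      rw [List.length_nil, List.length_eq_zero_iff] at hcs
      simp [hcs] at hc
    | cons r rs =>
      by_cases hr : r = 0
      · subst hr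
        simp only [elim, if_true]
        constructor
        · intro h
          exact absurd h (by decide)
        · intro h
          have := h (true :: List.replicate rs.length false) (by simp) (by simp [xs, xs_false]) true
            (by simp)
          exact absurd this (by decide)
      · set b := Nat.log2 r with hb
        have hrb : r.testBit b = true := Nat.testBit_log2 hr
        set f : ℕ → ℕ := fun s => if s.testBit b then Nat.xor s r else s with hf
        have hf' : ∀ s, f s = if s.testBit b then s ^^^ r else s := fun s => rfl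
        have hf0 : f 0 = 0 := by simp [hf']
        have hfadd : ∀ x y, f (x ^^^ y) = f x ^^^ f y := by
          intro x y
          rw [hf', hf', hf', Nat.testBit_xor]
          apply Nat.eq_of_testBit_eq
          intro i
          cases hx : x.testBit b <;> cases hy : y.testBit b <;>
            simp [Nat.testBit_xor]
          · cases x.testBit i <;> cases y.testBit i <;> cases r.testBit i <;> rfl
          · cases x.testBit i <;> cases y.testBit i <;> cases r.testBit i <;> rfl
        have hfz : ∀ y, f y = 0 → y = 0 ∨ y = r := by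
          intro y hy
          rw [hf'] at hy
          by_cases hyb : y.testBit b = true
          · rw [if_pos hyb] at hy
            right
            exact Nat.xor_eq_zero_iff.mp hy
          · rw [if_neg hyb] at hy
            exact Or.inl hy
        have hel : elim (n + 1) (r :: rs) = elim n (rs.map f) := by
          simp only [elim, hr, if_false, hf, hb]
        rw [hel, ih _ (by simpa using hL)]
        constructor
        · intro h cs hcs hx
          cases cs with
          | nil => simp at hcs
          | cons c cs =>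
            have hlen : cs.length = (rs.map f).length := by simpa using hcs
            simp only [xs] at hx
            have hx' : xs cs rs = if c then r else 0 := (Nat.xor_eq_zero_iff.mp hx).symm
            have h1 : xs cs (rs.map f) = 0 := by
              rw [xs_map f hf0 hfadd, hx']
              cases c
              · simpa using hf0
              · rw [if_pos rfl, hf', if_pos hrb, Nat.xor_self]
            have h2 := h cs hlen h1
            have h3 : cs = List.replicate cs.length false := by
              rw [List.eq_replicate_iff]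
              exact ⟨rfl, h2⟩
            have h4 : xs cs rs = 0 := by
              rw [h3]
              exact xs_false _ _
            rw [h4] at hx'
            intro d hd
            rcases List.mem_cons.mp hd with rfl | hd
            · cases d
              · rfl
              · rw [if_pos rfl] at hx'
                exact absurd hx'.symm hr
            · exact h2 d hd
        · intro h cs hcs hx
          rw [xs_map f hf0 hfadd] at hx
          rcases hfz _ hx with hx | hx
          · intro c hc
            exact h (false :: cs) (by simpa using hcs) (by simp [xs, hx]) c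
              (List.mem_cons_of_mem _ hc)
          · have := h (true :: cs) (by simpa using hcs) (by simp [xs, hx]) true (by simp)
            exact absurd this (by decide)

def mat (L : List ℕ) : Fin 6 → Fin 6 → ZMod 2 :=
  fun i j => if (L.getD i 0).testBit j then 1 else 0

def Good (L : List ℕ) : Prop :=
  ∃ a b c d e f, L = [a, b, c, d, e, f] ∧ a < 64 ∧ b < 64 ∧ c < 64 ∧ d < 64 ∧ e < 64 ∧ f < 64

def bz (b : Bool) : ZMod 2 := if b then 1 else 0

theorem bz_xor (a b : Bool) : bz (a ^^ b) = bz a + bz b := by
  cases a <;> cases b <;> decide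

theorem bz_and (a b : Bool) : bz (a && b) = bz a * bz b := by
  cases a <;> cases b <;> decide

theorem bz_eq_zero (a : Bool) : bz a = 0 ↔ a = false := by
  cases a <;> decide

theorem mat_eq (a b c d e f : ℕ) (i j : Fin 6) :
    mat [a, b, c, d, e, f] i j = bz ((![a, b, c, d, e, f] i).testBit j) := by
  fin_cases i <;> rfl

theorem xs_testBit (c : Fin 6 → Bool) (a : Fin 6 → ℕ) (j : ℕ) :
    bz ((xs [c 0, c 1, c 2, c 3, c 4, c 5] [a 0, a 1, a 2, a 3, a 4, a 5]).testBit j) =
      ∑ i, bz (c i) * bz ((a i).testBit j) := by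
  have h : ∀ (c : Bool) (r : ℕ), (if c then r else 0).testBit j = (c && r.testBit j) := by
    intro c r
    cases c <;> simp
  simp only [xs, Nat.testBit_xor, h, bz_xor, bz_and, Nat.zero_testBit, Fin.sum_univ_six]
  simp only [bz]
  simp
  ring

theorem elim_spec {L : List ℕ} (hL : Good L) : elim 6 L = true ↔ NS (mat L) := by
  obtain ⟨a, b, c, d, e, f, rfl, ha, hb, hc, hd, he, hf⟩ := hL
  rw [elim_iff 6 _ (by simp)]
  set v : Fin 6 → ℕ := ![a, b, c, d, e, f] with hv
  have hlt : ∀ i, v i < 64 := by
    intro i
    fin_cases i <;> assumption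
  have hbz : ∀ z : ZMod 2, bz (decide (z ≠ 0)) = z := by decide
  have hbd : ∀ b : Bool, decide (bz b ≠ 0) = b := by decide
  constructor
  · intro h z hz
    set cf : Fin 6 → Bool := fun i => decide (z i ≠ 0) with hcf
    have h1 : xs [cf 0, cf 1, cf 2, cf 3, cf 4, cf 5] [a, b, c, d, e, f] = 0 := by
      apply Nat.eq_of_testBit_eq
      intro j
      rw [Nat.zero_testBit, ← bz_eq_zero]
      have h2 := xs_testBit cf v j
      change bz ((xs [cf 0, cf 1, cf 2, cf 3, cf 4, cf 5] [a, b, c, d, e, f]).testBit j) = _ at h2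
      rw [h2]
      by_cases hj : j < 6
      · have h3 := hz ⟨j, hj⟩
        rw [← h3]
        refine Finset.sum_congr rfl fun i _ => ?_
        rw [mat_eq, hcf]
        simp only [hbz]
        rfl
      · refine Finset.sum_eq_zero fun i _ => ?_
        have : (v i).testBit j = false := by
          apply Nat.testBit_lt_two_pow
          calc v i < 64 := hlt i
            _ = 2 ^ 6 := by norm_num
            _ ≤ 2 ^ j := Nat.pow_le_pow_right (by norm_num) (by omega)
        rw [this]
        simp [bz]
    have h4 := h _ (by simp) h1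
    funext i
    have h5 : cf i = false := by
      fin_cases i <;> exact h4 _ (by simp)
    by_contra hne
    have : cf i = true := by simpa [hcf] using hne
    rw [this] at h5
    exact absurd h5 (by decide)
  · intro h cs hcs hx
    match cs, hcs with
    | [c0, c1, c2, c3, c4, c5], _ =>
      set cf : Fin 6 → Bool := ![c0, c1, c2, c3, c4, c5] with hcf
      have h1 := h (fun i => bz (cf i)) (fun j => by
        have h2 := xs_testBit cf v j
        change bz ((xs [c0, c1, c2, c3, c4, c5] [a, b, c, d, e, f]).testBit j) = _ at h2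
        rw [hx, Nat.zero_testBit] at h2
        have h3 : bz false = 0 := rfl
        rw [h3] at h2
        rw [h2]
        refine Finset.sum_congr rfl fun i _ => ?_
        rw [mat_eq])
      intro x hxm
      have h6 : ∀ i, cf i = false := fun i => (bz_eq_zero _).mp (congrFun h1 i)
      simp only [List.mem_cons, List.not_mem_nil, or_false] at hxm
      rcases hxm with rfl | rfl | rfl | rfl | rfl | rfl
      · exact h6 0
      · exact h6 1
      · exact h6 2
      · exact h6 3
      · exact h6 4
      · exact h6 5

/-- The rows of the Gram matrix of one edge. -/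
def T (e : Fin 14) : List ℕ :=
  [if (gN e).testBit 0 then gN e else 0, if (gN e).testBit 1 then gN e else 0,
   if (gN e).testBit 2 then gN e else 0, if (gN e).testBit 3 then gN e else 0,
   if (gN e).testBit 4 then gN e else 0, if (gN e).testBit 5 then gN e else 0]

theorem gN_lt : ∀ e, gN e < 64 := by decide +kernel

theorem T_good (e : Fin 14) : Good (T e) := by
  have h : ∀ b : Bool, (if b then gN e else 0) < 64 := by
    intro b
    cases b
    · norm_num
    · exact gN_lt e
  exact ⟨_, _, _, _, _, _, rfl, h _, h _, h _, h _, h _, h _⟩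

theorem mat_T : ∀ e i j, mat (T e) i j = GM e i j := by decide +kernel

theorem zip_good {L t : List ℕ} (hL : Good L) (ht : Good t) :
    Good (List.zipWith Nat.xor L t) ∧ mat (List.zipWith Nat.xor L t) = mat L + mat t := by
  obtain ⟨a, b, c, d, e, f, rfl, ha, hb, hc, hd, he, hf⟩ := hL
  obtain ⟨a', b', c', d', e', f', rfl, ha', hb', hc', hd', he', hf'⟩ := ht
  have hx : ∀ {x y : ℕ}, x < 64 → y < 64 → Nat.xor x y < 64 := by
    intro x y h1 h2
    exact Nat.xor_lt_two_pow (n := 6) h1 h2
  refine ⟨⟨_, _, _, _, _, _, rfl, hx ha ha', hx hb hb', hx hc hc', hx hd hd', hx he he',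
    hx hf hf'⟩, ?_⟩
  have hz : List.zipWith Nat.xor [a, b, c, d, e, f] [a', b', c', d', e', f'] =
      [a ^^^ a', b ^^^ b', c ^^^ c', d ^^^ d', e ^^^ e', f ^^^ f'] := rfl
  rw [hz]
  funext i j
  rw [Pi.add_apply, Pi.add_apply, mat_eq, mat_eq, mat_eq, ← bz_xor]
  congr 1
  fin_cases i <;> exact Nat.testBit_xor ..

open Classical in
theorem go_spec : ∀ (es : List (Fin 14)), es.Nodup → ∀ L, Good L →
    go (es.map T) L = ∑ A ∈ es.toFinset.powerset,
      (-1 : ℤ) ^ A.card * if NS (mat L + ∑ e ∈ A, GM e) then 1 else 0 := by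
  intro es
  induction es with
  | nil =>
    intro _ L hL
    simp only [List.map_nil, go, List.toFinset_nil, Finset.powerset_empty, Finset.sum_singleton,
      Finset.card_empty, pow_zero, one_mul, Finset.sum_empty, add_zero]
    by_cases h : NS (mat L)
    · rw [if_pos h, if_pos ((elim_spec hL).2 h)]
    · rw [if_neg h, if_neg (fun h' => h ((elim_spec hL).1 h'))]
  | cons e es ih =>
    intro hnd L hL
    have hnd' := List.nodup_cons.mp hnd
    have hnotin : e ∉ es.toFinset := by
      rw [List.mem_toFinset]
      exact hnd'.1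
    obtain ⟨hg, hm⟩ := zip_good hL (T_good e)
    rw [List.map_cons, go, ih hnd'.2 L hL, ih hnd'.2 _ hg, List.toFinset_cons,
      Finset.sum_powerset_insert hnotin, sub_eq_add_neg, ← Finset.sum_neg_distrib]
    congr 1
    refine Finset.sum_congr rfl fun A hA => ?_
    have heA : e ∉ A := fun h => hnotin (Finset.mem_powerset.mp hA h)
    rw [Finset.card_insert_of_notMem heA, Finset.sum_insert heA, hm, pow_succ]
    have hT : mat (T e) = GM e := by
      funext i j
      exact mat_T e i j
    rw [hT, add_assoc]
    ring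

def ts : List (List ℕ) :=
  [[53, 0, 53, 0, 53, 53], [19, 19, 0, 0, 19, 0], [0, 0, 0, 0, 48, 48], [0, 0, 12, 12, 0, 0],
   [1, 0, 0, 0, 0, 0], [0, 18, 0, 0, 18, 0], [0, 2, 0, 0, 0, 0], [5, 0, 5, 0, 0, 0],
   [0, 0, 4, 0, 0, 0], [0, 0, 0, 8, 0, 0], [0, 14, 14, 14, 0, 0], [0, 0, 0, 0, 16, 0],
   [0, 0, 0, 0, 0, 32], [0, 0, 0, 40, 0, 40]]

theorem ts_eq : (List.finRange 14).map T = ts := by decide +kernel

theorem go_ts : go ts [0, 0, 0, 0, 0, 0] = -96 := by decide +kernel

theorem coeff_zero_M0 : M0.penrose.coeff 0 = -96 := by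
  classical
  have hz : Good [0, 0, 0, 0, 0, 0] :=
    ⟨0, 0, 0, 0, 0, 0, rfl, by norm_num, by norm_num, by norm_num, by norm_num, by norm_num,
      by norm_num⟩
  have hm : mat [0, 0, 0, 0, 0, 0] = 0 := by
    funext i j
    rw [mat_eq]
    fin_cases i <;> simp [bz]
  have h := go_spec (List.finRange 14) (List.nodup_finRange 14) _ hz
  rw [ts_eq, go_ts, List.toFinset_finRange] at h
  rw [h, Polynomial.coeff_zero_eq_eval_zero, BinMat.penrose, Polynomial.eval_finsetSum]
  refine Finset.sum_congr rfl fun A _ => ?_
  rw [hm, zero_add]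
  have h1 : Module.finrank (ZMod 2) (M0.bic A) = 0 ↔ NS (∑ e ∈ A, GM e) := by
    rw [← bic_M0]
    exact Submodule.finrank_eq_zero
  simp only [Polynomial.eval_mul, Polynomial.eval_pow, Polynomial.eval_neg, Polynomial.eval_one,
    Polynomial.eval_X]
  congr 1
  rw [zero_pow_eq]
  by_cases hN : NS (∑ e ∈ A, GM e)
  · rw [if_pos hN, if_pos (h1.2 hN)]
  · rw [if_neg hN, if_neg fun h' => hN (h1.1 h')]

theorem not_alternating_M0 : ¬ M0.Alternating := by
  intro h
  have := h 0 (Nat.zero_le _)
  rw [finrank_M0, coeff_zero_M0] at this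
  norm_num at this

/-- **Disproof of Q1.**  There is a minimal non-alternating bridgeless binary matroid that is
isomorphic neither to `F*`, nor to the cycle matroid of the Petersen graph, nor to `K₅*`. -/
theorem result : ∃ M : BinMat (Fin 14), M.MinimalNonAlternating ∧
    ¬ M.Iso fano.dual ∧ ¬ M.Iso (cycleMatroid petersen) ∧
    ¬ M.Iso (cycleMatroid (⊤ : SimpleGraph (Fin 5))).dual := by
  obtain ⟨N, hN, hmin⟩ := exists_minimal bridgeless_M0 not_alternating_M0
  have hg : Graphic N := hN.graphic graphic_M0
  refine ⟨N, hmin, fun h => not_graphic_fanoDual (hg.iso h), fun h => ?_,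
    fun h => not_graphic_K5Dual (hg.iso h)⟩
  obtain ⟨f, _⟩ := h
  have h1 : N.E.card = (cycleMatroid petersen).E.card := by
    rw [← Fintype.card_coe, ← Fintype.card_coe]
    exact Fintype.card_congr f
  have h2 : N.E.card ≤ 14 := (Finset.card_le_univ _).trans (by simp)
  rw [h1, card_petersen] at h2
  omega

end Pool.Agent.Results.MP_5bb8bc_co.Disproof
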